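import Pool.Agent.Lib.CMT.Defs

/-!
# PROJECT CMT : interfaces (statements `S_...`) and the target theorem `T1`

Every part proves its `S_...`; the assembly `CMT/Main.lean` derives `T1` from them.
All parts use only `CMT/Defs.lean`.
-/

open scoped BigOperators ComplexConjugate
open MeasureTheory

noncomputable section

namespace CMT

variable {F : Type} [Field F] [NumberField F]

/-- Schwartz-Bruhat functions. -/
def IsSB (φ : (Fin 3 → F) → ℂ) : Prop := ∃ n : ℕ, 0 < n ∧ SB n φ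

/-- Schwartz-Bruhat functions of two vectors. -/
def IsSB2 (ψ : (Fin 3 → F) × (Fin 3 → F) → ℂ) : Prop := ∃ n : ℕ, 0 < n ∧ SB2 n ψ

/-- `G` is an arithmetic group: contained in `Γ(3)`, of finite index in `Γ(1)`. -/
def IsArith (D : Dat F) (G : Subgroup (SG D)) : Prop :=
  G ≤ Gam D 3 ∧ G.relIndex (Gam D 1) ≠ 0

/-- `c` is a 2-form coefficient invariant under `G`, times a conjugate one: the density
`f = c₁ c̄₂` satisfies `f (g z) = |w₂|⁶ f z`, `w = g ẑ`. -/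
def IsDens (D : Dat F) (G : Subgroup (SG D)) (f : ℂ × ℂ → ℂ) : Prop :=
  ∀ g ∈ G, ∀ z ∈ Ball D, f (act D g z) = ((‖num D g z 2‖ ^ 6 : ℝ) : ℂ) * f z

/-- The 1-form `ω` is invariant under `G`. -/
def IsInv1 (D : Dat F) (G : Subgroup (SG D)) (ω : ℂ × ℂ → ℂ × ℂ) : Prop :=
  ∀ g ∈ G, ∀ z ∈ Ball D, pull1 D g z (ω (act D g z)) = ω z

/-! ## the target -/

/-- THEOREM T1.  For every totally real `F ≠ ℚ`, all data `D` and all sign patterns
`e₀ + e₁ = e₂ + e₃`, `e_i(t0) = 1`, there are `a_i ∈ F` of signs `e_i`, Schwartz-Bruhat functions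
`φ_i` and an arithmetic group `G` acting freely, properly discontinuously and cocompactly on the
ball such that the theta 1-forms `ω_i = ω_{a_i,φ_i}` are holomorphic, closed and `G`-invariant and
`∫_{G\Ball} ω₀ ∧ ω₁ ∧ conj (ω₂ ∧ ω₃) ≠ 0`. -/
def T1 : Prop :=
  ∀ (F : Type) [Field F] [NumberField F] [NumberField.IsTotallyReal F]
    (_ : 2 ≤ Module.finrank ℚ F) (D : Dat F) (e : Fin 4 → (F →+* ℝ) → ℝ)
    (_ : ∀ i t, e i t = 1 ∨ e i t = -1) (_ : ∀ i, e i D.t0 = 1)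
    (_ : ∀ t, e 0 t + e 1 t = e 2 t + e 3 t),
    ∃ (a : Fin 4 → F) (φ : Fin 4 → (Fin 3 → F) → ℂ) (G : Subgroup (SG D)),
      (∀ i t, 0 < e i t * t (a i)) ∧ (∀ i, IsSB (φ i)) ∧
      IsArith D G ∧
      (∀ g ∈ G, ∀ z ∈ Ball D, act D g z ∈ Ball D) ∧
      (∀ g ∈ G, ∀ z ∈ Ball D, act D g z = z → g = 1) ∧
      (∀ C : Set (ℂ × ℂ), IsCompact C → C ⊆ Ball D →
        {g : SG D | g ∈ G ∧ ∃ z ∈ C, act D g z ∈ C}.Finite) ∧
      (∃ C : Set (ℂ × ℂ), IsCompact C ∧ C ⊆ Ball D ∧ ∀ z ∈ Ball D, ∃ g ∈ G, act D g z ∈ C) ∧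
      (∀ i, IsInv1 D G (om D (a i) (φ i))) ∧
      (∀ i, ∃ P : ℂ × ℂ → ℂ, ∀ z ∈ Ball D,
        HasFDerivAt P ((om D (a i) (φ i) z).1 • ContinuousLinearMap.fst ℂ ℂ ℂ +
          (om D (a i) (φ i) z).2 • ContinuousLinearMap.snd ℂ ℂ ℂ) z) ∧
      (∃ χ, IsWeight D G χ) ∧
      ∀ χ, IsWeight D G χ →
        ∫ z, ((χ z : ℝ) : ℂ) *
          (wedge (om D (a 0) (φ 0) z) (om D (a 1) (φ 1) z) *
            conj (wedge (om D (a 2) (φ 2) z) (om D (a 3) (φ 3) z))) ≠ 0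

/-! ## part H : signs and approximation (helper7) -/

/-- Weak approximation at the real places. -/
def S_Approx : Prop :=
  ∀ (F : Type) [Field F] [NumberField F] (r : (F →+* ℝ) → ℝ) (ε : ℝ), 0 < ε →
    ∃ x : F, ∀ t : F →+* ℝ, |t x - r t| < ε

/-- `a₃ = a₁X² + a₂Y²`. -/
def a3 (a1 a2 X Y : F) : F := a1 * X ^ 2 + a2 * Y ^ 2

/-- `a₄ = a₁ a₂ a₃`. -/
def a4 (a1 a2 X Y : F) : F := a1 * a2 * a3 a1 a2 X Y

/-- The majorant of `<a₁,a₂>` attached to the orthogonal basis `(X,Y)`, `(-a₂Y, a₁X)`: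
`E(x,x') = ((a₁X x + a₂Y x')² + |a₁a₂| (X x' - Y x)²)/|a₃|`. -/
def EXY (a1 a2 X Y : F) (t : F →+* ℝ) : Matrix (Fin 2) (Fin 2) ℝ :=
  |t (a3 a1 a2 X Y)|⁻¹ •
    !![(t a1 * t X) ^ 2 + |t a1 * t a2| * t Y ^ 2,
        (t a1 * t a2 - |t a1 * t a2|) * (t X * t Y);
       (t a1 * t a2 - |t a1 * t a2|) * (t X * t Y),
        (t a2 * t Y) ^ 2 + |t a1 * t a2| * t X ^ 2]

/-- Choice of `a₁` with given signs. -/
def S_Sgn : Prop :=
  ∀ (F : Type) [Field F] [NumberField F] (e : (F →+* ℝ) → ℝ), (∀ t, e t = 1 ∨ e t = -1) →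
    ∃ a : F, ∀ t : F →+* ℝ, 0 < e t * t a

/-- Choice of `X, Y`: at a place with `e₂ = e₁` (first line) take `(X,Y)` near `(1,0)`, at the
others near `(0,1)`; if `e₀(t) = e₁(t)` then `EXY = E12` exactly. -/
def S_Choice : Prop :=
  ∀ (F : Type) [Field F] [NumberField F] (e : Fin 4 → (F →+* ℝ) → ℝ)
    (_ : ∀ i t, e i t = 1 ∨ e i t = -1) (_ : ∀ t, e 0 t + e 1 t = e 2 t + e 3 t)
    (a1 a2 : F) (_ : ∀ t, 0 < e 0 t * t a1) (_ : ∀ t, 0 < e 1 t * t a2) (ε : ℝ) (_ : 0 < ε),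
    ∃ X Y : F, (∀ t, 0 < e 2 t * t (a3 a1 a2 X Y)) ∧ (∀ t, 0 < e 3 t * t (a4 a1 a2 X Y)) ∧
      ∀ t : F →+* ℝ, ∀ i j, |EXY a1 a2 X Y t i j - E12 a1 a2 t i j| < ε

/-- `EXY` and `E12` are majorants. -/
def S_Maj : Prop :=
  ∀ (F : Type) [Field F] [NumberField F] (a1 a2 X Y : F), a1 ≠ 0 → a2 ≠ 0 →
    (∀ t : F →+* ℝ, IsMaj (t a1) (t a2) (E12 a1 a2 t)) ∧
    (a3 a1 a2 X Y ≠ 0 → ∀ t : F →+* ℝ, IsMaj (t a1) (t a2) (EXY a1 a2 X Y t))

/-! ## part E : kernel, substitution, finite sums (helper38, helper81) -/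

/-- `ker` at the base point is a wedge product. -/
def S_Split : Prop :=
  ∀ (F : Type) [Field F] [NumberField F] [NumberField.IsTotallyReal F] (D : Dat F) (a1 a2 : F),
    0 < D.t0 a1 → 0 < D.t0 a2 → ∀ φ1 φ2 : (Fin 3 → F) → ℂ, IsSB φ1 → IsSB φ2 → ∀ z ∈ Ball D,
      ker D a1 a2 (E12 a1 a2) (fun p => φ1 p.1 * φ2 p.2) z = wedge (om D a1 φ1 z) (om D a2 φ2 z)

/-- The substitution `x = X x₃ - a₂Y x₄`, `x' = Y x₃ + a₁X x₄`. -/
def subP (a1 a2 X Y : F) (p : (Fin 3 → F) × (Fin 3 → F)) : (Fin 3 → F) × (Fin 3 → F) :=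
  (fun i => X * p.1 i - a2 * Y * p.2 i, fun i => Y * p.1 i + a1 * X * p.2 i)

/-- The kernel at the majorant `EXY` is the kernel of `<a₃,a₄>` at its base point. -/
def S_Star : Prop :=
  ∀ (F : Type) [Field F] [NumberField F] (D : Dat F) (a1 a2 X Y : F),
    0 < D.t0 a1 → 0 < D.t0 a2 → a3 a1 a2 X Y ≠ 0 →
    ∀ (ψ : (Fin 3 → F) × (Fin 3 → F) → ℂ) (z : ℂ × ℂ),
      ker D a1 a2 (EXY a1 a2 X Y) ψ z =
        ((D.t0 (a3 a1 a2 X Y) : ℝ) : ℂ) *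
          ker D (a3 a1 a2 X Y) (a4 a1 a2 X Y) (E12 (a3 a1 a2 X Y) (a4 a1 a2 X Y))
            (fun p => ψ (subP a1 a2 X Y p)) z

/-- Schwartz-Bruhat functions are stable under the substitution. -/
def S_SubSB : Prop :=
  ∀ (F : Type) [Field F] [NumberField F] (a1 a2 X Y : F), a1 ≠ 0 → a2 ≠ 0 →
    a3 a1 a2 X Y ≠ 0 → ∀ ψ : (Fin 3 → F) × (Fin 3 → F) → ℂ, IsSB2 ψ →
      IsSB2 (fun p => ψ (subP a1 a2 X Y p))

/-- A Schwartz-Bruhat function of two vectors is a finite sum of products. -/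
def S_Fin : Prop :=
  ∀ (F : Type) [Field F] [NumberField F] (ψ : (Fin 3 → F) × (Fin 3 → F) → ℂ), IsSB2 ψ →
    ∃ (k : ℕ) (φ φ' : Fin k → (Fin 3 → F) → ℂ), (∀ j, IsSB (φ j)) ∧ (∀ j, IsSB (φ' j)) ∧
      ∀ p, ψ p = ∑ j, φ j p.1 * φ' j p.2

/-! ## part C : analysis (helper34) -/

/-- Absolute convergence of the theta forms. -/
def S_SumOm : Prop :=
  ∀ (F : Type) [Field F] [NumberField F] [NumberField.IsTotallyReal F] (D : Dat F) (a : F),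
    a ≠ 0 → ∀ φ : (Fin 3 → F) → ℂ, IsSB φ → ∀ z ∈ Ball D,
      (Summable fun x => ‖φ x * tm1 D a x z * (du (D.t0 D.bet) (rx D.t0 x) z).1‖) ∧
      (Summable fun x => ‖φ x * tm1 D a x z * (du (D.t0 D.bet) (rx D.t0 x) z).2‖)

/-- Absolute convergence of the kernel. -/
def S_SumKer : Prop :=
  ∀ (F : Type) [Field F] [NumberField F] [NumberField.IsTotallyReal F] (D : Dat F) (a1 a2 : F),
    a1 ≠ 0 → a2 ≠ 0 → ∀ E : (F →+* ℝ) → Matrix (Fin 2) (Fin 2) ℝ,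
    (∀ t, t ≠ D.t0 → (E t).PosDef) → ∀ ψ : (Fin 3 → F) × (Fin 3 → F) → ℂ, IsSB2 ψ →
      ∀ z ∈ Ball D, Summable fun p : (Fin 3 → F) × (Fin 3 → F) =>
        ‖ψ p * tm2 D a1 a2 E p.1 p.2 z *
          wedge (du (D.t0 D.bet) (rx D.t0 p.1) z) (du (D.t0 D.bet) (rx D.t0 p.2) z)‖

/-- The theta forms are holomorphic and closed (they have a primitive on the ball). -/
def S_Prim : Prop :=
  ∀ (F : Type) [Field F] [NumberField F] [NumberField.IsTotallyReal F] (D : Dat F) (a : F),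
    a ≠ 0 → ∀ φ : (Fin 3 → F) → ℂ, IsSB φ →
      ∃ P : ℂ × ℂ → ℂ, ∀ z ∈ Ball D,
        HasFDerivAt P ((om D a φ z).1 • ContinuousLinearMap.fst ℂ ℂ ℂ +
          (om D a φ z).2 • ContinuousLinearMap.snd ℂ ℂ ℂ) z

/-- The theta forms are continuous on the ball. -/
def S_ContOm : Prop :=
  ∀ (F : Type) [Field F] [NumberField F] [NumberField.IsTotallyReal F] (D : Dat F) (a : F),
    a ≠ 0 → ∀ φ : (Fin 3 → F) → ℂ, IsSB φ → ContinuousOn (om D a φ) (Ball D)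

/-- The kernel is continuous on the ball. -/
def S_ContKer : Prop :=
  ∀ (F : Type) [Field F] [NumberField F] [NumberField.IsTotallyReal F] (D : Dat F) (a1 a2 : F),
    a1 ≠ 0 → a2 ≠ 0 → ∀ E : (F →+* ℝ) → Matrix (Fin 2) (Fin 2) ℝ,
    (∀ t, t ≠ D.t0 → (E t).PosDef) → ∀ ψ : (Fin 3 → F) × (Fin 3 → F) → ℂ, IsSB2 ψ →
      ContinuousOn (ker D a1 a2 E ψ) (Ball D)

/-- Continuity of the integral in the majorant, at the base point. -/
def S_ContE : Prop :=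
  ∀ (F : Type) [Field F] [NumberField F] [NumberField.IsTotallyReal F] (D : Dat F) (a1 a2 : F),
    a1 ≠ 0 → a2 ≠ 0 → ∀ ψ : (Fin 3 → F) × (Fin 3 → F) → ℂ, IsSB2 ψ →
    ∀ χ : ℂ × ℂ → ℝ, Continuous χ → HasCompactSupport χ → tsupport χ ⊆ Ball D →
    ∀ f : ℂ × ℂ → ℂ, ContinuousOn f (Ball D) → ∀ η > 0, ∃ ε > 0,
    ∀ E : (F →+* ℝ) → Matrix (Fin 2) (Fin 2) ℝ,
      (∀ t, t ≠ D.t0 → (E t).PosDef) →
      (∀ t, t ≠ D.t0 → ∀ i j, |E t i j - E12 a1 a2 t i j| < ε) →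
      ‖(∫ z, ((χ z : ℝ) : ℂ) * (ker D a1 a2 E ψ z * conj (f z))) -
        ∫ z, ((χ z : ℝ) : ℂ) * (ker D a1 a2 (E12 a1 a2) ψ z * conj (f z))‖ < η

/-! ## part F : nonvanishing (helper55, helper8) -/

/-- For suitable `φ₁, φ₂` the wedge product is not zero at the centre of the ball. -/
def S_NV : Prop :=
  ∀ (F : Type) [Field F] [NumberField F] [NumberField.IsTotallyReal F] (D : Dat F) (a1 a2 : F),
    a1 ≠ 0 → a2 ≠ 0 → ∃ φ1 φ2 : (Fin 3 → F) → ℂ, IsSB φ1 ∧ IsSB φ2 ∧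
      wedge (om D a1 φ1 0) (om D a2 φ2 0) ≠ 0

/-! ## part B : the action (elementary geometry) (helper91, helper1) -/

/-- Isometries preserve the ball; `w₂ ≠ 0`; the action is an action. -/
def S_Act : Prop :=
  ∀ (F : Type) [Field F] [NumberField F] (D : Dat F),
    (∀ z : ℂ × ℂ, act D 1 z = z) ∧
    (∀ g : SG D, IsIso D g → ∀ z ∈ Ball D, act D g z ∈ Ball D ∧ num D g z 2 ≠ 0) ∧
    (∀ g k : SG D, IsIso D g → IsIso D k → ∀ z ∈ Ball D,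
      act D (g * k) z = act D g (act D k z) ∧
      num D (g * k) z 2 = num D g (act D k z) 2 * num D k z 2) ∧
    (∀ g : SG D, IsIso D g → ContinuousOn (act D g) (Ball D))

/-- `Γ(n)` has finite index in `Γ(1)`. -/
def S_Idx : Prop :=
  ∀ (F : Type) [Field F] [NumberField F] (D : Dat F) (n : ℕ), 0 < n →
    (Gam D n).relIndex (Gam D 1) ≠ 0

/-! ## part D : compactness etc. (helper45, helper82, helper26) -/

/-- Godement: `Γ(n)` is cocompact (and so is every subgroup of finite index). -/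
def S_Cpt : Prop :=
  ∀ (F : Type) [Field F] [NumberField F] [NumberField.IsTotallyReal F]
    (_ : 2 ≤ Module.finrank ℚ F) (D : Dat F) (G : Subgroup (SG D)), G ≤ Gam D 1 →
    G.relIndex (Gam D 1) ≠ 0 →
      ∃ C : Set (ℂ × ℂ), IsCompact C ∧ C ⊆ Ball D ∧ ∀ z ∈ Ball D, ∃ g ∈ G, act D g z ∈ C

/-- Proper discontinuity. -/
def S_Pd : Prop :=
  ∀ (F : Type) [Field F] [NumberField F] [NumberField.IsTotallyReal F] (D : Dat F)
    (C : Set (ℂ × ℂ)), IsCompact C → C ⊆ Ball D →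
      {g : SG D | g ∈ Gam D 1 ∧ ∃ z ∈ C, act D g z ∈ C}.Finite

/-- `Γ(3)` acts freely. -/
def S_Free : Prop :=
  ∀ (F : Type) [Field F] [NumberField F] [NumberField.IsTotallyReal F] (D : Dat F),
    ∀ g ∈ Gam D 3, ∀ z ∈ Ball D, act D g z = z → g = 1

/-- Weights exist. -/
def S_Wt : Prop :=
  ∀ (F : Type) [Field F] [NumberField F] [NumberField.IsTotallyReal F]
    (_ : 2 ≤ Module.finrank ℚ F) (D : Dat F) (G : Subgroup (SG D)), IsArith D G →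
      ∃ χ, IsWeight D G χ

/-- Unfolding: independence of the weight and the index formula. -/
def S_Unf : Prop :=
  ∀ (F : Type) [Field F] [NumberField F] [NumberField.IsTotallyReal F] (D : Dat F)
    (G G' : Subgroup (SG D)), G' ≤ G → G ≤ Gam D 1 → G'.relIndex G ≠ 0 →
    ∀ χ χ' : ℂ × ℂ → ℝ, IsWeight D G χ → IsWeight D G' χ' →
    ∀ f : ℂ × ℂ → ℂ, ContinuousOn f (Ball D) → IsDens D G f →
      ∫ z, ((χ' z : ℝ) : ℂ) * f z = (G'.relIndex G : ℂ) * ∫ z, ((χ z : ℝ) : ℂ) * f z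

/-- Positivity. -/
def S_PosInt : Prop :=
  ∀ (F : Type) [Field F] [NumberField F] [NumberField.IsTotallyReal F] (D : Dat F)
    (G : Subgroup (SG D)), G ≤ Gam D 1 → ∀ χ : ℂ × ℂ → ℝ, IsWeight D G χ →
    ∀ c : ℂ × ℂ → ℂ, ContinuousOn c (Ball D) → IsDens D G (fun z => c z * conj (c z)) →
      c 0 ≠ 0 → ∫ z, ((χ z : ℝ) : ℂ) * (c z * conj (c z)) ≠ 0

/-! ## part I : invariance -/

/-- Rank two, product form, all majorants at once (helper40, helper45, helper31). -/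
def S_Inv2 : Prop :=
  ∀ (F : Type) [Field F] [NumberField F] [NumberField.IsTotallyReal F] (D : Dat F) (a1 a2 : F),
    0 < D.t0 a1 → 0 < D.t0 a2 → ∀ ψ : (Fin 3 → F) × (Fin 3 → F) → ℂ, IsSB2 ψ →
    ∃ n : ℕ, 0 < n ∧ ∀ E E' : (F →+* ℝ) → Matrix (Fin 2) (Fin 2) ℝ,
      (∀ t, t ≠ D.t0 → IsMaj (t a1) (t a2) (E t)) →
      (∀ t, t ≠ D.t0 → IsMaj (t a1) (t a2) (E' t)) →
      IsDens D (Gam D n) (fun z => ker D a1 a2 E ψ z * conj (ker D a1 a2 E' ψ z))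

/-- Rank one, product form: `ω ⊗ conj ω'` is invariant (fallback: unitary characters). -/
def S_Inv1P : Prop :=
  ∀ (F : Type) [Field F] [NumberField F] [NumberField.IsTotallyReal F] (D : Dat F) (a : F),
    0 < D.t0 a → ∀ n : ℕ, 0 < n → ∃ N : ℕ, 0 < N ∧ ∀ g ∈ Gam D N, ∃ s : ℂ, ‖s‖ = 1 ∧
      ∀ φ : (Fin 3 → F) → ℂ, SB n φ → ∀ z ∈ Ball D,
        pull1 D g z (om D a φ (act D g z)) = s • om D a φ z

/-- Rank one: each theta form is invariant under an arithmetic group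
(helper61, helper75, helper91, helper1, helper31). -/
def S_Inv1 : Prop :=
  ∀ (F : Type) [Field F] [NumberField F] [NumberField.IsTotallyReal F] (D : Dat F) (a : F),
    0 < D.t0 a → ∀ φ : (Fin 3 → F) → ℂ, IsSB φ →
      ∃ G : Subgroup (SG D), IsArith D G ∧ IsInv1 D G (om D a φ)

end CMT
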