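import Mathlib

/-!
# PROJECT CMT : definitions

`F` a totally real number field, `T = (F →+* ℝ)` its places.  Data `D : Dat F`:
`D.t0` a place, `D.del = Δ` totally positive, `D.bet = β` positive at `t0`, negative at the
other places, both integral.  `K = F(δ)`, `δ² = -Δ` (Mathlib: `QuadraticAlgebra F (-Δ) 0`).
Hermitian form `h = diag (1, 1, -β)` on `K³`: signature `(2,1)` at `t0`, positive definite at
the other places.

`(x,y)_t = x₀y₀ + x₁y₁ - t(β) x₂y₂` for real vectors;  for `z = (z₁,z₂)` in the ball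
`|z₁|² + |z₂|² < t0 β` and `b = t0 β`: `ẑ = (z₁,z₂,1)`, `ll = (x,ẑ)`, `mm = -(ẑ,ẑ) = b - z₁² - z₂²`
(real part `> 0` on the ball), `ss = mm^(1/2)`, `uu = ll/ss`, `du` the gradient of `uu`.

`om a φ` : the theta 1-form
`∑_x φ(x) exp (- ∑_{t≠t0} c_t (x,x)_t - c_{t0} ((x,x)_{t0} + 2 uu²)) du`, `c_t = π |t a| / √(t Δ)`.
`ker a₁ a₂ E ψ` : the 2-form kernel, `E t` a symmetric `2 × 2` matrix for each `t ≠ t0`.
-/

open scoped BigOperators ComplexConjugate
open MeasureTheory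

noncomputable section

namespace CMT

instance finEmb (F : Type) [Field F] [NumberField F] : Finite (F →+* ℝ) :=
  Finite.of_injective (fun t : F →+* ℝ => (Complex.ofRealHom.comp t : F →+* ℂ)) (by
    intro s t hst
    ext x
    have h := RingHom.congr_fun hst x
    simpa using h)

instance fintypeEmb (F : Type) [Field F] [NumberField F] : Fintype (F →+* ℝ) :=
  Fintype.ofFinite _

instance decEmb (F : Type) [Field F] [NumberField F] : DecidableEq (F →+* ℝ) :=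
  Classical.decEq _

/-- The data of a compact arithmetic ball quotient surface. -/
structure Dat (F : Type) [Field F] [NumberField F] where
  /-- the place where the form is indefinite -/
  t0 : F →+* ℝ
  /-- `Δ`; `K = F(√(-Δ))` -/
  del : F
  /-- `β`; the hermitian form is `diag (1, 1, -β)` -/
  bet : F
  del_int : IsIntegral ℤ del
  bet_int : IsIntegral ℤ bet
  del_pos : ∀ t : F →+* ℝ, 0 < t del
  bet_pos : 0 < t0 bet
  bet_neg : ∀ t : F →+* ℝ, t ≠ t0 → t bet < 0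

variable {F : Type} [Field F] [NumberField F]

/-- The CM field `K = F(δ)`, `δ² = -Δ` (as a ring). -/
abbrev KD (D : Dat F) : Type := QuadraticAlgebra F (-D.del) 0

/-- The embedding of `K` into `ℂ` over the place `t`: `x + δ y ↦ t x + i √(t Δ) t y`. -/
def ev (D : Dat F) (t : F →+* ℝ) : KD D →+* ℂ where
  toFun v := ((t v.re : ℝ) : ℂ) + Complex.I * ((Real.sqrt (t D.del) : ℝ) : ℂ) * ((t v.im : ℝ) : ℂ)
  map_one' := by
    simp only [QuadraticAlgebra.re_one, QuadraticAlgebra.im_one, map_one, map_zero,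
      Complex.ofReal_one, Complex.ofReal_zero, mul_zero, add_zero]
  map_zero' := by simp
  map_add' := by
    intro v w
    simp only [QuadraticAlgebra.re_add, QuadraticAlgebra.im_add, map_add, Complex.ofReal_add]
    ring
  map_mul' := by
    intro v w
    have h2 : ((Real.sqrt (t D.del) : ℝ) : ℂ) ^ 2 = ((t D.del : ℝ) : ℂ) := by
      rw [← Complex.ofReal_pow, Real.sq_sqrt (D.del_pos t).le]
    simp only [QuadraticAlgebra.re_mul, QuadraticAlgebra.im_mul, map_add, map_mul, map_neg,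
      map_zero, Complex.ofReal_add, Complex.ofReal_mul, Complex.ofReal_neg, Complex.ofReal_zero]
    have hI : Complex.I ^ 2 = -1 := Complex.I_sq
    linear_combination (-((t v.im : ℝ) : ℂ) * ((t w.im : ℝ) : ℂ) *
      ((Real.sqrt (t D.del) : ℝ) : ℂ) ^ 2) * hI +
      (((t v.im : ℝ) : ℂ) * ((t w.im : ℝ) : ℂ)) * h2

/-- Complex conjugation of `K/F`. -/
def cj (D : Dat F) (v : KD D) : KD D := ⟨v.re, -v.im⟩

/-- `v` is in the order `R = O_F + O_F δ`. -/
def RInt (D : Dat F) (v : KD D) : Prop := IsIntegral ℤ v.re ∧ IsIntegral ℤ v.im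

/-- The matrix of the hermitian form. -/
def Hm (D : Dat F) : Matrix (Fin 3) (Fin 3) (KD D) :=
  Matrix.diagonal ![1, 1, -(algebraMap F (KD D) D.bet)]

/-- The group `SL₃(K)`. -/
abbrev SG (D : Dat F) : Type := Matrix.SpecialLinearGroup (Fin 3) (KD D)

/-- `g` is an isometry of the hermitian form. -/
def IsIso (D : Dat F) (g : SG D) : Prop :=
  (g.1.map (cj D)).transpose * Hm D * g.1 = Hm D

/-- The complex matrix of `g` at the place `t`. -/
def mt (D : Dat F) (t : F →+* ℝ) (g : SG D) : Matrix (Fin 3) (Fin 3) ℂ := g.1.map (ev D t)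

/-- `ẑ = (z₁, z₂, 1)`. -/
def hat (z : ℂ × ℂ) : Fin 3 → ℂ := ![z.1, z.2, 1]

/-- `g ẑ` (at the place `t0`). -/
def num (D : Dat F) (g : SG D) (z : ℂ × ℂ) : Fin 3 → ℂ := (mt D D.t0 g).mulVec (hat z)

/-- The action on the ball. -/
def act (D : Dat F) (g : SG D) (z : ℂ × ℂ) : ℂ × ℂ :=
  (num D g z 0 / num D g z 2, num D g z 1 / num D g z 2)

/-- The ball `|z₁|² + |z₂|² < t0 β`. -/
def Ball (D : Dat F) : Set (ℂ × ℂ) := {z | ‖z.1‖ ^ 2 + ‖z.2‖ ^ 2 < D.t0 D.bet}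

/-- The pullback of a 1-form: if `p = (p₁,p₂)` are the coefficients of `dz₁, dz₂` at `act g z`,
then `pull1 D g z p` are the coefficients at `z` of the pulled back form
(`∂(gz)_j/∂z_i = (M_ji w₂ - w_j M_2i)/w₂²`, `w = M ẑ`). -/
def pull1 (D : Dat F) (g : SG D) (z : ℂ × ℂ) (p : ℂ × ℂ) : ℂ × ℂ :=
  let w := num D g z
  let M := mt D D.t0 g
  ((p.1 * (M 0 0 * w 2 - w 0 * M 2 0) + p.2 * (M 1 0 * w 2 - w 1 * M 2 0)) / w 2 ^ 2,
   (p.1 * (M 0 1 * w 2 - w 0 * M 2 1) + p.2 * (M 1 1 * w 2 - w 1 * M 2 1)) / w 2 ^ 2)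

/-- The pullback of a 2-form `c dz₁ ∧ dz₂` (`det M = 1`, the Jacobian is `w₂⁻³`). -/
def pull2 (D : Dat F) (g : SG D) (z : ℂ × ℂ) (c : ℂ) : ℂ := c / num D g z 2 ^ 3

/-- The real coordinates of a vector at the place `t`. -/
def rx (t : F →+* ℝ) (x : Fin 3 → F) : Fin 3 → ℝ := fun i => t (x i)

/-- The real bilinear form `(x,y) = x₀y₀ + x₁y₁ - b x₂y₂`. -/
def qf (b : ℝ) (x y : Fin 3 → ℝ) : ℝ := x 0 * y 0 + x 1 * y 1 - b * (x 2 * y 2)

/-- `(x, ẑ)`. -/
def ll (b : ℝ) (x : Fin 3 → ℝ) (z : ℂ × ℂ) : ℂ :=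
  (x 0 : ℂ) * z.1 + (x 1 : ℂ) * z.2 - (b : ℂ) * (x 2 : ℂ)

/-- `-(ẑ, ẑ)`. -/
def mm (b : ℝ) (z : ℂ × ℂ) : ℂ := (b : ℂ) - z.1 ^ 2 - z.2 ^ 2

/-- The square root of `mm` (principal branch). -/
def ss (b : ℝ) (z : ℂ × ℂ) : ℂ := (mm b z) ^ ((1 : ℂ) / 2)

/-- `uu = (x,ẑ)/√(-(ẑ,ẑ))`. -/
def uu (b : ℝ) (x : Fin 3 → ℝ) (z : ℂ × ℂ) : ℂ := ll b x z / ss b z

/-- The gradient of `uu` in `z`. -/
def du (b : ℝ) (x : Fin 3 → ℝ) (z : ℂ × ℂ) : ℂ × ℂ :=
  (((x 0 : ℂ) * mm b z + ll b x z * z.1) / (mm b z * ss b z),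
   ((x 1 : ℂ) * mm b z + ll b x z * z.2) / (mm b z * ss b z))

/-- The coefficient of `dz₁ ∧ dz₂` in `p ∧ q`. -/
def wedge (p q : ℂ × ℂ) : ℂ := p.1 * q.2 - p.2 * q.1

/-- `κ_t = π / √(t Δ)`. -/
def kap (D : Dat F) (t : F →+* ℝ) : ℝ := Real.pi / Real.sqrt (t D.del)

/-- The exponent at `t0`: `κ |t0 a| ((x,x) + 2 uu²)`. -/
def e0 (D : Dat F) (a : F) (x : Fin 3 → F) (z : ℂ × ℂ) : ℂ :=
  ((kap D D.t0 * |D.t0 a| : ℝ) : ℂ) *
    (((qf (D.t0 D.bet) (rx D.t0 x) (rx D.t0 x) : ℝ) : ℂ) + 2 * uu (D.t0 D.bet) (rx D.t0 x) z ^ 2)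

/-- The exponent at the places `t ≠ t0`, one line. -/
def e1 (D : Dat F) (a : F) (x : Fin 3 → F) : ℝ :=
  ∑ t ∈ Finset.univ.erase D.t0, kap D t * (|t a| * qf (t D.bet) (rx t x) (rx t x))

/-- The term of the theta 1-form. -/
def tm1 (D : Dat F) (a : F) (x : Fin 3 → F) (z : ℂ × ℂ) : ℂ :=
  Complex.exp (-(((e1 D a x : ℝ) : ℂ) + e0 D a x z))

/-- The theta 1-form `ω_{a,φ}` (coefficients of `dz₁`, `dz₂`). -/
def om (D : Dat F) (a : F) (φ : (Fin 3 → F) → ℂ) (z : ℂ × ℂ) : ℂ × ℂ :=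
  (∑' x : Fin 3 → F, φ x * tm1 D a x z * (du (D.t0 D.bet) (rx D.t0 x) z).1,
   ∑' x : Fin 3 → F, φ x * tm1 D a x z * (du (D.t0 D.bet) (rx D.t0 x) z).2)

/-- The exponent at the places `t ≠ t0` of the kernel, `E t` a `2 × 2` matrix. -/
def e2 (D : Dat F) (E : (F →+* ℝ) → Matrix (Fin 2) (Fin 2) ℝ) (x y : Fin 3 → F) : ℝ :=
  ∑ t ∈ Finset.univ.erase D.t0, kap D t *
    (E t 0 0 * qf (t D.bet) (rx t x) (rx t x) + (E t 0 1 + E t 1 0) * qf (t D.bet) (rx t x) (rx t y)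
      + E t 1 1 * qf (t D.bet) (rx t y) (rx t y))

/-- The term of the kernel. -/
def tm2 (D : Dat F) (a1 a2 : F) (E : (F →+* ℝ) → Matrix (Fin 2) (Fin 2) ℝ)
    (x y : Fin 3 → F) (z : ℂ × ℂ) : ℂ :=
  Complex.exp (-(((e2 D E x y : ℝ) : ℂ) + e0 D a1 x z + e0 D a2 y z))

/-- The rank two kernel (coefficient of `dz₁ ∧ dz₂`). -/
def ker (D : Dat F) (a1 a2 : F) (E : (F →+* ℝ) → Matrix (Fin 2) (Fin 2) ℝ)
    (ψ : (Fin 3 → F) × (Fin 3 → F) → ℂ) (z : ℂ × ℂ) : ℂ :=
  ∑' p : (Fin 3 → F) × (Fin 3 → F), ψ p * tm2 D a1 a2 E p.1 p.2 z *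
    wedge (du (D.t0 D.bet) (rx D.t0 p.1) z) (du (D.t0 D.bet) (rx D.t0 p.2) z)

/-- Schwartz-Bruhat functions of level `n` on `F³`: supported in `(1/n) O³`, periodic mod `n O³`. -/
def SB (n : ℕ) (φ : (Fin 3 → F) → ℂ) : Prop :=
  (∀ x, φ x ≠ 0 → ∀ i, IsIntegral ℤ ((n : F) * x i)) ∧
  ∀ x y : Fin 3 → F, (∀ i, IsIntegral ℤ (y i)) → φ (fun i => x i + (n : F) * y i) = φ x

/-- The same on `F³ × F³`. -/
def SB2 (n : ℕ) (ψ : (Fin 3 → F) × (Fin 3 → F) → ℂ) : Prop :=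
  (∀ p, ψ p ≠ 0 → (∀ i, IsIntegral ℤ ((n : F) * p.1 i)) ∧ ∀ i, IsIntegral ℤ ((n : F) * p.2 i)) ∧
  ∀ (p : (Fin 3 → F) × (Fin 3 → F)) (x y : Fin 3 → F),
    (∀ i, IsIntegral ℤ (x i)) → (∀ i, IsIntegral ℤ (y i)) →
    ψ (fun i => p.1 i + (n : F) * x i, fun i => p.2 i + (n : F) * y i) = ψ p

/-- `E` is a majorant of `diag (α₁, α₂)`: symmetric, positive definite, `E q⁻¹ E = q`. -/
def IsMaj (α1 α2 : ℝ) (E : Matrix (Fin 2) (Fin 2) ℝ) : Prop :=
  E.PosDef ∧ E * Matrix.diagonal ![α1⁻¹, α2⁻¹] * E = Matrix.diagonal ![α1, α2]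

/-- The base point of the space of majorants: `E t = diag (|t a₁|, |t a₂|)`. -/
def E12 (a1 a2 : F) (t : F →+* ℝ) : Matrix (Fin 2) (Fin 2) ℝ :=
  Matrix.diagonal ![|t a1|, |t a2|]

/-- The order `R = O_F + O_F δ` as a subring of `K`. -/
def RR (D : Dat F) : Subring (KD D) where
  carrier := {v | RInt D v}
  mul_mem' := by
    intro v w hv hw
    refine ⟨?_, ?_⟩
    · rw [QuadraticAlgebra.re_mul]
      exact (hv.1.mul hw.1).add ((D.del_int.neg.mul hv.2).mul hw.2)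
    · rw [QuadraticAlgebra.im_mul, zero_mul, zero_mul, add_zero]
      exact (hv.1.mul hw.2).add (hv.2.mul hw.1)
  one_mem' := ⟨by rw [QuadraticAlgebra.re_one]; exact isIntegral_one,
    by rw [QuadraticAlgebra.im_one]; exact isIntegral_zero⟩
  add_mem' := by
    intro v w hv hw
    exact ⟨by rw [QuadraticAlgebra.re_add]; exact hv.1.add hw.1,
      by rw [QuadraticAlgebra.im_add]; exact hv.2.add hw.2⟩
  zero_mem' := ⟨by rw [QuadraticAlgebra.re_zero]; exact isIntegral_zero,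
    by rw [QuadraticAlgebra.im_zero]; exact isIntegral_zero⟩
  neg_mem' := by
    intro v hv
    exact ⟨by rw [QuadraticAlgebra.re_neg]; exact hv.1.neg,
      by rw [QuadraticAlgebra.im_neg]; exact hv.2.neg⟩

theorem cj_mul (D : Dat F) (v w : KD D) : cj D (v * w) = cj D v * cj D w := by
  apply QuadraticAlgebra.ext
  · simp only [cj, QuadraticAlgebra.re_mul]; ring
  · simp only [cj, QuadraticAlgebra.im_mul]; ring

/-- Complex conjugation as a ring homomorphism. -/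
def cjh (D : Dat F) : KD D →+* KD D where
  toFun := cj D
  map_one' := by
    apply QuadraticAlgebra.ext
    · simp only [cj, QuadraticAlgebra.re_one]
    · simp only [cj, QuadraticAlgebra.im_one, neg_zero]
  map_mul' := cj_mul D
  map_zero' := by
    apply QuadraticAlgebra.ext
    · simp only [cj, QuadraticAlgebra.re_zero]
    · simp only [cj, QuadraticAlgebra.im_zero, neg_zero]
  map_add' := by
    intro v w
    apply QuadraticAlgebra.ext
    · simp only [cj, QuadraticAlgebra.re_add]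
    · simp only [cj, QuadraticAlgebra.im_add]; ring

theorem isIso_one (D : Dat F) : IsIso D 1 := by
  have h1 : ((1 : SG D).1.map (cj D)) = 1 := by
    exact Matrix.map_one (cjh D) (map_zero (cjh D)) (map_one (cjh D)) (n := Fin 3)
  unfold IsIso
  rw [h1, Matrix.transpose_one, Matrix.one_mul]
  simp

theorem isIso_mul (D : Dat F) {g k : SG D} (hg : IsIso D g) (hk : IsIso D k) :
    IsIso D (g * k) := by
  unfold IsIso at *
  have h1 : ((g * k).1.map (cj D)) = (g.1.map (cj D)) * (k.1.map (cj D)) := by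
    exact Matrix.map_mul (L := g.1) (M := k.1) (f := cjh D)
  rw [h1, Matrix.transpose_mul]
  have h2 : (g * k).1 = g.1 * k.1 := rfl
  rw [h2]
  calc (k.1.map (cj D)).transpose * (g.1.map (cj D)).transpose * Hm D * (g.1 * k.1)
      = (k.1.map (cj D)).transpose * ((g.1.map (cj D)).transpose * Hm D * g.1) * k.1 := by
        simp only [Matrix.mul_assoc]
    _ = Hm D := by rw [hg, hk]

theorem isIso_inv (D : Dat F) {g : SG D} (hg : IsIso D g) : IsIso D g⁻¹ := by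
  unfold IsIso at *
  have h1 : g.1 * (g⁻¹).1 = 1 := by
    exact congrArg Subtype.val (mul_inv_cancel g)
  have h2 : ((g.1).map (cj D)) * ((g⁻¹).1.map (cj D)) = 1 := by
    have h3 := Matrix.map_mul (L := g.1) (M := (g⁻¹).1) (f := cjh D)
    rw [h1] at h3
    have h4 := Matrix.map_one (cjh D) (map_zero (cjh D)) (map_one (cjh D)) (n := Fin 3)
    rw [h4] at h3
    exact h3.symm
  have h5 : ((g⁻¹).1.map (cj D)).transpose * ((g.1).map (cj D)).transpose = 1 := by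
    rw [← Matrix.transpose_mul, h2, Matrix.transpose_one]
  calc ((g⁻¹).1.map (cj D)).transpose * Hm D * (g⁻¹).1
      = ((g⁻¹).1.map (cj D)).transpose * ((g.1.map (cj D)).transpose * Hm D * g.1) * (g⁻¹).1 := by
        rw [hg]
    _ = (((g⁻¹).1.map (cj D)).transpose * (g.1.map (cj D)).transpose) * Hm D *
          (g.1 * (g⁻¹).1) := by simp only [Matrix.mul_assoc]
    _ = Hm D := by rw [h5, h1, Matrix.one_mul, Matrix.mul_one]

/-- `g ≡ 1` mod `n R`. -/
def IsCong (D : Dat F) (n : ℕ) (g : SG D) : Prop :=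
  ∃ X : Matrix (Fin 3) (Fin 3) (KD D), (∀ i j, RInt D (X i j)) ∧ g.1 = 1 + (n : KD D) • X

theorem isCong_entry (D : Dat F) {n : ℕ} {g : SG D} (hg : IsCong D n g) (i j : Fin 3) :
    g.1 i j ∈ RR D := by
  obtain ⟨X, hX, hgX⟩ := hg
  rw [hgX, Matrix.add_apply, Matrix.smul_apply, smul_eq_mul]
  refine (RR D).add_mem ?_ ((RR D).mul_mem (natCast_mem (RR D) n) (hX i j))
  by_cases hij : i = j
  · subst hij; rw [Matrix.one_apply_eq]; exact (RR D).one_mem
  · rw [Matrix.one_apply_ne hij]; exact (RR D).zero_mem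

/-- The congruence subgroup `Γ(n)` of `SU(h)`: isometries `g ∈ SL₃(K)`, `g ≡ 1` mod `n R`. -/
def Gam (D : Dat F) (n : ℕ) : Subgroup (SG D) where
  carrier := {g | IsIso D g ∧ IsCong D n g}
  one_mem' := by
    refine ⟨isIso_one D, 0, ?_, ?_⟩
    · intro i j; exact (RR D).zero_mem
    · simp
  mul_mem' := by
    rintro g k ⟨hg, X, hX, hgX⟩ ⟨hk, Y, hY, hkY⟩
    refine ⟨isIso_mul D hg hk, X + Y + (n : KD D) • (X * Y), ?_, ?_⟩
    · intro i j
      have h1 : (X * Y) i j ∈ RR D := by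
        rw [Matrix.mul_apply]
        exact (RR D).sum_mem (fun l _ => (RR D).mul_mem (hX i l) (hY l j))
      exact (RR D).add_mem ((RR D).add_mem (hX i j) (hY i j))
        (by rw [Matrix.smul_apply, smul_eq_mul]; exact (RR D).mul_mem (natCast_mem (RR D) n) h1)
    · have h2 : (g * k).1 = g.1 * k.1 := rfl
      rw [h2, hgX, hkY]
      simp only [Matrix.add_mul, Matrix.mul_add, Matrix.one_mul, Matrix.mul_one, smul_add,
        Matrix.smul_mul, Matrix.mul_smul]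
      abel
  inv_mem' := by
    rintro g ⟨hg, hc⟩
    have hent := isCong_entry D hc
    obtain ⟨X, hX, hgX⟩ := hc
    have hinv : ∀ i j, (g⁻¹).1 i j ∈ RR D := by
      intro i j
      rw [Matrix.SpecialLinearGroup.coe_inv, Matrix.adjugate_fin_three]
      fin_cases i <;> fin_cases j <;>
        (simp only [Matrix.of_apply, Matrix.cons_val', Matrix.cons_val_zero, Matrix.cons_val_one,
          Matrix.cons_val, Fin.zero_eta, Fin.mk_one, Fin.reduceFinMk, Fin.isValue]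
         repeat' first
           | exact hent _ _
           | apply (RR D).add_mem
           | apply (RR D).sub_mem
           | apply (RR D).mul_mem
           | apply (RR D).neg_mem)
    refine ⟨isIso_inv D hg, -((g⁻¹).1 * X), ?_, ?_⟩
    · intro i j
      refine (RR D).neg_mem ?_
      rw [Matrix.mul_apply]
      exact (RR D).sum_mem (fun l _ => (RR D).mul_mem (hinv i l) (hX l j))
    · have h1 : (g⁻¹).1 * g.1 = 1 := by
        exact congrArg Subtype.val (inv_mul_cancel g)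
      rw [hgX, Matrix.mul_add, Matrix.mul_one, Matrix.mul_smul] at h1
      rw [smul_neg, ← h1]
      abel

theorem mem_Gam (D : Dat F) (n : ℕ) (g : SG D) : g ∈ Gam D n ↔ IsIso D g ∧ IsCong D n g :=
  Iff.rfl

/-- A weight for the action of `G` on the ball: `χ ≥ 0` continuous with compact support in the
ball and `∑_{g ∈ G} χ(g z) = 1`.  For a `G`-invariant form `f` of top degree
`∫_{G\Ball} f = ∫_Ball χ f`. -/
def IsWeight (D : Dat F) (G : Subgroup (SG D)) (χ : ℂ × ℂ → ℝ) : Prop :=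
  Continuous χ ∧ (∀ z, 0 ≤ χ z) ∧ HasCompactSupport χ ∧ tsupport χ ⊆ Ball D ∧
  ∀ z ∈ Ball D, HasSum (fun g : G => χ (act D g.1 z)) 1

end CMT
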