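import Pool.Agent.Lib.CMT.G.T1
import Pool.Agent.Lib.CMT.H.Choice
import Pool.Agent.Lib.CMT.E.Main
import Pool.Agent.Lib.CMT.E.Fin
import Pool.Agent.Lib.CMT.C.Ker
import Pool.Agent.Lib.CMT.C.ContE
import Pool.Agent.Lib.CMT.C.Om
import Pool.Agent.Lib.CMT.NV.NV
import Pool.Agent.Lib.CMT.D.Wex
import Pool.Agent.Lib.CMT.D.Free
import Pool.Agent.Lib.CMT.D.Cpt
import Pool.Agent.Lib.CMT.B.Act
import Pool.Agent.Lib.CMT.B.MainB
import Pool.Agent.Lib.CMT.I.Inv2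
import Pool.Agent.Lib.CMT.I.PF
import Pool.Agent.Lib.CMT.I.EqA
import Pool.Agent.Lib.CMT.I.EqD
import Pool.Agent.Lib.CMT.I.PhiG
import Pool.Agent.Lib.CMT.I.EDg
import Pool.Agent.Lib.CMT.I.EDa
import Pool.Agent.Lib.CMT.I.Pois
import Pool.Agent.Lib.CMT.I.Prod
import Pool.Agent.Lib.CMT.I.Loc0
import Pool.Agent.Lib.CMT.I.Loc0I
import Pool.Agent.Lib.CMT.I.LocT
import Pool.Agent.Lib.CMT.I.LocInt
import Pool.Agent.Lib.CMT.I.Gau
import Pool.Agent.Lib.CMT.I.GauQ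
import Pool.Agent.Lib.CMT.I.GauD

/-!
# PROJECT CMT : the final assembly of `T1`
-/

namespace CMT

theorem inv2 : S_Inv2 :=
  IP.pInv2 CMT.B.pAct (IP.pPF (IP.pProd IP.pPois)
    (IP.pLocInt (IP.pLoc0 (IP.pGauQ IP.pGau) IP.pGauD) IP.pLoc0I (IP.pLocT IP.pGau))
    IP.pEDg IP.pEDa) (IP.pEqA IP.pEqD) IP.tPhiG

/-- THEOREM T1, no hypothesis. -/
theorem t1 : T1 :=
  Pool.Agent.CMT.G.T1_of
    { sgn := sgn
      choice := choice
      maj := thMaj
      split := thSplit pSumOm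
      star := thStar
      subSB := subSB
      fin := fin
      sumKer := sumKer
      contOm := pContOm
      contKer := contKer
      contE := contE
      nv := NV.holds
      wt := thmWt s_Cpt
      inv2 := inv2
      inv1 := CMT.B.thmInv1 }
    CMT.B.pAct thmFree thmPd s_Cpt pPrim

end CMT
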