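import Pool.Agent.Lib.CMT.MainT1
import Pool.Agent.Lib.CMT.J.CPm
import Pool.Agent.Lib.CMT.J.T2m
import Pool.Agent.Lib.CMT.J.J1
import Pool.Agent.Lib.CMT.J.Curve
import Pool.Agent.Lib.CMT.J.J4
import Pool.Agent.Lib.CMT.J.FixR
import Pool.Agent.Lib.CMT.J.LineC
import Pool.Agent.Lib.CMT.J.MaxC
import Pool.Agent.Lib.CMT.J.DensC
import Pool.Agent.Lib.CMT.J.Const
import Pool.Agent.Lib.CMT.J.Expan
import Pool.Agent.Lib.CMT.J.EmbS
import Pool.Agent.Lib.CMT.J3.Main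
import Pool.Agent.Lib.CMT.G.Unf

/-!
# PROJECT CMT: THEOREM (C') and THEOREM T2, without hypotheses
-/

namespace CMT

/-- THEOREM (C'), no hypothesis. -/
theorem cp : J.S_CP :=
  J.tCP_red ⟨CMT.B.pAct, J.vInv, J.vPrim, J.curve, J3.tH1, J3.tH2, J.s_StabCpt, J.s_Inter,
    J.tFixR, J.tLineC, J.tMaxC, J.pDensC, J.tSemiL⟩

/-- THEOREM T2, no hypothesis. -/
theorem t2 : J.T2 :=
  J.thmT2_red ⟨t1, cp, J.s_FG, J.thmExpan, J.tConst, J.thmSigns, J.tGradInv,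
    Pool.Agent.CMT.G.unf, CMT.B.pAct⟩

end CMT
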